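import Mathlib.Tactic
import Mathlib.Data.Fin.VecNotation

/-!
# Word equations with length constraints (MP_57b0a1): Arnoux-Rauzy vectors (definitions)

`AR s V`: the vector `V` arises from the seed `s` by finitely many steps; a step adds one
coordinate to the two other coordinates.
-/

set_option autoImplicit false

namespace Pool.WL

/-- Vectors. -/
abbrev V3 := Fin 3 → ℕ

/-- Add the coordinate `j` to the two others. -/
def op (j : Fin 3) (V : V3) : V3 := fun i => if i = j then V i else V i + V j

/-- The Arnoux-Rauzy relation. -/
inductive AR (s : V3) : V3 → Prop
  | refl : AR s s
  | step (j : Fin 3) (V : V3) : AR s V → AR s (op j V)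

end Pool.WL
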