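import Pool.Agent.Lib.MP_57b0a1_wl.G
import Mathlib.Algebra.Ring.Int.Parity
import Mathlib.Data.Int.GCD

/-!
# Word equations with length constraints (MP_57b0a1): multiplication from the pairs

`MulP k X z` is stated with Arnoux-Rauzy relations between positive vectors, linear inequalities
and divisibility; it is the graph of the multiplication `z = k * X` for `256 ≤ X`, `k ≤ X`.
-/

set_option autoImplicit false

namespace Pool.WL

/-- The pairs `(A ^ k 1, A ^ (2 k) 1)`, as Arnoux-Rauzy relations. -/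
def Pair (P Q : V3) : Prop :=
  (∀ i, AR (TT i 1) (TT i P)) ∧ (∀ i, AR (TT i P) (TT i Q)) ∧
    ∀ i, AR (TT i (P + 1)) (TT i (P + Q))

theorem AR.pos {s V : V3} (h : AR s V) (hs : ∀ i, 0 < s i) : ∀ i, 0 < V i := by
  induction h with
  | refl => exact hs
  | step j V _ ih =>
    intro i
    have := ih i
    simp only [op]
    split <;> omega

theorem TT_pos (i : Fin 4) {P : V3} (hP : ∀ i, 0 < P i) : ∀ j, 0 < TT i P j := by
  have h0 := hP 0
  have h1 := hP 1
  have h2 := hP 2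
  fin_cases i <;> intro j <;> fin_cases j <;> simp [TT] <;> omega

theorem TT_one_pos (i : Fin 4) : ∀ j, 0 < TT i 1 j := TT_pos i (fun _ => by simp)

theorem Pair.pos {P Q : V3} (h : Pair P Q) : (∀ i, 0 < P i) ∧ ∀ i, 0 < Q i := by
  have h1 : ∀ i, 0 < P i := (h.1 0).pos (TT_one_pos 0)
  exact ⟨h1, (h.2.1 0).pos (TT_pos 0 h1)⟩

/-- The definition of the multiplication in the range `k ≤ X`. -/
def MulP (k X z : ℕ) : Prop :=
  256 ≤ X ∧ k ≤ X ∧ (∃ P Q : V3, Pair P Q ∧ P 0 ≤ X ∧ X < 8 * P 0 ∧ z ≤ 64 * Q 0) ∧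
    X ∣ z ∧ X + 1 ∣ z + k ∧ X + 2 ∣ z + 2 * k

theorem mulP_iff (k X z : ℕ) : MulP k X z ↔ 256 ≤ X ∧ k ≤ X ∧ z = k * X := by
  constructor
  · rintro ⟨hX, hk, ⟨P, Q, hPQ, h1, h2, h3⟩, d0, d1, d2⟩
    refine ⟨hX, hk, ?_⟩
    obtain ⟨n, rfl, rfl⟩ := (pair_iff' P Q).1 hPQ
    rw [aw_zero_coord] at h1 h2 h3
    have hz : z ≤ 128 * (X * X) := by
      have h4 := (af_two_mul n).2
      have h5 : af n ^ 2 ≤ X ^ 2 := Nat.pow_le_pow_left h1 2
      nlinarith
    obtain ⟨h, rfl⟩ := d0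
    have hh : h ≤ 128 * X := by
      have : X * h ≤ X * (128 * X) := by nlinarith
      exact Nat.le_of_mul_le_mul_left this (by omega)
    -- divisibility over the integers
    have e1 : ((X : ℤ) + 1) ∣ 2 * ((k : ℤ) - h) := by
      have h6 : ((X : ℤ) + 1) ∣ (X : ℤ) * h + k := by exact_mod_cast d1
      have h7 : (X : ℤ) * h + k = ((X : ℤ) + 1) * h + (k - h) := by ring
      rw [h7] at h6
      exact Dvd.dvd.mul_left ((dvd_add_right (Dvd.intro _ rfl)).1 h6) 2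
    have e2 : ((X : ℤ) + 2) ∣ 2 * ((k : ℤ) - h) := by
      have h6 : ((X : ℤ) + 2) ∣ (X : ℤ) * h + 2 * k := by exact_mod_cast d2
      have h7 : (X : ℤ) * h + 2 * k = ((X : ℤ) + 2) * h + 2 * (k - h) := by ring
      rw [h7] at h6
      exact (dvd_add_right (Dvd.intro _ rfl)).1 h6
    have hcop : IsCoprime ((X : ℤ) + 1) ((X : ℤ) + 2) := ⟨-1, 1, by ring⟩
    have e3 := hcop.mul_dvd e1 e2
    have hkh : (k : ℤ) - h = 0 := by
      by_contra hne
      have h8 : 2 * ((k : ℤ) - h) ≠ 0 := mul_ne_zero two_ne_zero hne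
      have h9 := Int.le_of_dvd (abs_pos.2 h8) ((dvd_abs _ _).2 e3)
      have h10 : |2 * ((k : ℤ) - h)| ≤ 256 * X := by
        rw [abs_le]
        have : (h : ℤ) ≤ 128 * X := by exact_mod_cast hh
        have : (k : ℤ) ≤ X := by exact_mod_cast hk
        constructor <;> omega
      have h11 : (256 : ℤ) ≤ X := by exact_mod_cast hX
      nlinarith
    have : k = h := by omega
    rw [this, mul_comm]
  · rintro ⟨hX, hk, rfl⟩
    obtain ⟨n, h1, h2⟩ := exists_af (X := X) (by omega)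
    refine ⟨hX, hk, ⟨aw n, aw (2 * n), (pair_iff' _ _).2 ⟨n, rfl, rfl⟩, h1, h2, ?_⟩,
      Dvd.intro_left k rfl, ⟨k, by ring⟩, ⟨k, by ring⟩⟩
    rw [aw_zero_coord]
    have h4 := (af_two_mul n).1
    have h5 : k * X ≤ X * X := Nat.mul_le_mul_right X hk
    have h6 : X * X ≤ (8 * af n) * (8 * af n) := Nat.mul_le_mul h2.le h2.le
    nlinarith

/-- The multiplication. -/
theorem mul_iff (x y z : ℕ) : x * y = z ↔
    ∃ z1 z2, MulP y (x + (x + y + 256)) z1 ∧ MulP y (x + y + 256) z2 ∧ z1 = z2 + z := by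
  constructor
  · rintro rfl
    refine ⟨_, _, (mulP_iff _ _ _).2 ⟨by omega, by omega, rfl⟩,
      (mulP_iff _ _ _).2 ⟨by omega, by omega, rfl⟩, by ring⟩
  · rintro ⟨z1, z2, h1, h2, h3⟩
    obtain ⟨-, -, rfl⟩ := (mulP_iff _ _ _).1 h1
    obtain ⟨-, -, rfl⟩ := (mulP_iff _ _ _).1 h2
    have : y * (x + (x + y + 256)) = y * (x + y + 256) + x * y := by ring
    omega

end Pool.WL
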