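import Pool.Agent.Lib.MP_57b0a1_wl.ARDef
import Mathlib.Order.Monotone.Basic

/-!
# Arnoux-Rauzy vectors: rigidity (MP_57b0a1, section G)

`AT s V` is the relation `AT` for triples of numbers (`ar_iff`).  Main results: `rigidity` (finite
tree), `pair_iff'` (the definition of the pairs `(A ^ k 1, A ^ (2 k) 1)`), `af_two_mul`,
`exists_af` (growth).
-/

set_option autoImplicit false

namespace Pool.WL

/-- `AT s1 s2 s3 V1 V2 V3`: the vector `V` arises from the seed `s` by finitely many steps. -/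
inductive AT (s1 s2 s3 : ℕ) : ℕ → ℕ → ℕ → Prop
  | base : AT s1 s2 s3 s1 s2 s3
  | step1 {a b c : ℕ} : AT s1 s2 s3 a b c → AT s1 s2 s3 a (b + a) (c + a)
  | step2 {a b c : ℕ} : AT s1 s2 s3 a b c → AT s1 s2 s3 (a + b) b (c + b)
  | step3 {a b c : ℕ} : AT s1 s2 s3 a b c → AT s1 s2 s3 (a + c) (b + c) c

section basics

variable {t1 t2 t3 x1 x2 x3 : ℕ}

theorem AT.le (h : AT t1 t2 t3 x1 x2 x3) : t1 ≤ x1 ∧ t2 ≤ x2 ∧ t3 ≤ x3 := by
  induction h with
  | base => exact ⟨le_rfl, le_rfl, le_rfl⟩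
  | step1 _ ih => omega
  | step2 _ ih => omega
  | step3 _ ih => omega

/-- The closed triangle inequalities. -/
theorem AT.tri (h : AT t1 t2 t3 x1 x2 x3) (h1 : t1 ≤ t2 + t3) (h2 : t2 ≤ t1 + t3)
    (h3 : t3 ≤ t1 + t2) : x1 ≤ x2 + x3 ∧ x2 ≤ x1 + x3 ∧ x3 ≤ x1 + x2 := by
  induction h with
  | base => exact ⟨h1, h2, h3⟩
  | step1 _ ih => omega
  | step2 _ ih => omega
  | step3 _ ih => omega

/-- The strict triangle inequalities. -/
theorem AT.tri' (h : AT t1 t2 t3 x1 x2 x3) (h1 : t1 < t2 + t3) (h2 : t2 < t1 + t3)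
    (h3 : t3 < t1 + t2) : x1 < x2 + x3 ∧ x2 < x1 + x3 ∧ x3 < x1 + x2 := by
  induction h with
  | base => exact ⟨h1, h2, h3⟩
  | step1 _ ih => omega
  | step2 _ ih => omega
  | step3 _ ih => omega

theorem AT.inv1 (h : AT t1 t2 t3 x1 x2 x3) (h2 : x1 < x2) (h3 : x1 < x3) :
    (x1 = t1 ∧ x2 = t2 ∧ x3 = t3) ∨ AT t1 t2 t3 x1 (x2 - x1) (x3 - x1) := by
  cases h with
  | base => exact Or.inl ⟨rfl, rfl, rfl⟩
  | step1 h => right; simpa using h
  | step2 h => omega
  | step3 h => omega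

theorem AT.inv2 (h : AT t1 t2 t3 x1 x2 x3) (h1 : x2 < x1) (h3 : x2 < x3) :
    (x1 = t1 ∧ x2 = t2 ∧ x3 = t3) ∨ AT t1 t2 t3 (x1 - x2) x2 (x3 - x2) := by
  cases h with
  | base => exact Or.inl ⟨rfl, rfl, rfl⟩
  | step1 h => omega
  | step2 h => right; simpa using h
  | step3 h => omega

theorem AT.inv3 (h : AT t1 t2 t3 x1 x2 x3) (h1 : x3 < x1) (h2 : x3 < x2) :
    (x1 = t1 ∧ x2 = t2 ∧ x3 = t3) ∨ AT t1 t2 t3 (x1 - x3) (x2 - x3) x3 := by
  cases h with
  | base => exact Or.inl ⟨rfl, rfl, rfl⟩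
  | step1 h => omega
  | step2 h => omega
  | step3 h => right; simpa using h

theorem AT.cast {y1 y2 y3 : ℕ} (h : AT t1 t2 t3 x1 x2 x3) (h1 : x1 = y1) (h2 : x2 = y2)
    (h3 : x3 = y3) : AT t1 t2 t3 y1 y2 y3 := by
  subst h1 h2 h3
  exact h

/-- Three steps `M_1 M_2 M_3` can be removed. -/
theorem AT.peel (h : AT t1 t2 t3 (x1 + x2 + 2 * x3) (x1 + 2 * x2 + 3 * x3) (x1 + 2 * x2 + 4 * x3))
    (p1 : 0 < x1) (p2 : 0 < x2) (p3 : 0 < x3) (l1 : t1 ≤ x1) (l2 : t2 ≤ x2) :
    AT t1 t2 t3 x1 x2 x3 := by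
  rcases h.inv1 (by omega) (by omega) with h1 | h1
  · omega
  · rcases h1.inv2 (by omega) (by omega) with h2 | h2
    · omega
    · rcases h2.inv3 (by omega) (by omega) with h3 | h3
      · omega
      · exact h3.cast (by omega) (by omega) (by omega)

/-- Three steps `M_1 M_2 M_3` can be added. -/
theorem AT.push (h : AT t1 t2 t3 x1 x2 x3) :
    AT t1 t2 t3 (x1 + x2 + 2 * x3) (x1 + 2 * x2 + 3 * x3) (x1 + 2 * x2 + 4 * x3) :=
  h.step3.step2.step1.cast (by ring) (by ring) (by ring)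

end basics

/-! ### The relation `R` -/

/-- The conditions for the matrices `1`, `1 + B`, `1 + B ^ 2`, `B ^ 2`. -/
structure R (s1 s2 s3 V1 V2 V3 : ℕ) : Prop where
  ar : AT s1 s2 s3 V1 V2 V3
  ar1 : AT (s1 + s3) (s1 + s2 + s3) (s2 + 2 * s3) (V1 + V3) (V1 + V2 + V3) (V2 + 2 * V3)
  ar2 : AT (s1 + s2 + s3) (2 * s2 + 2 * s3) (s1 + s2 + 3 * s3)
    (V1 + V2 + V3) (2 * V2 + 2 * V3) (V1 + V2 + 3 * V3)
  ar3 : AT (s2 + s3) (s2 + 2 * s3) (s1 + s2 + 2 * s3) (V2 + V3) (V2 + 2 * V3) (V1 + V2 + 2 * V3)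

/-- The matrix `A = M_1 M_2 M_3`. -/
def Am (x : ℕ × ℕ × ℕ) : ℕ × ℕ × ℕ :=
  (x.1 + x.2.1 + 2 * x.2.2, x.1 + 2 * x.2.1 + 3 * x.2.2, x.1 + 2 * x.2.1 + 4 * x.2.2)

theorem R.refl (s1 s2 s3 : ℕ) : R s1 s2 s3 s1 s2 s3 := ⟨.base, .base, .base, .base⟩

theorem R.push {s1 s2 s3 x1 x2 x3 : ℕ} (h : R s1 s2 s3 x1 x2 x3) :
    R s1 s2 s3 (x1 + x2 + 2 * x3) (x1 + 2 * x2 + 3 * x3) (x1 + 2 * x2 + 4 * x3) :=
  ⟨h.ar.push, h.ar1.push.cast (by ring) (by ring) (by ring),
    h.ar2.push.cast (by ring) (by ring) (by ring), h.ar3.push.cast (by ring) (by ring) (by ring)⟩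

theorem R.peel {s1 s2 s3 x1 x2 x3 : ℕ}
    (h : R s1 s2 s3 (x1 + x2 + 2 * x3) (x1 + 2 * x2 + 3 * x3) (x1 + 2 * x2 + 4 * x3))
    (p1 : 0 < x1) (p2 : 0 < x2) (p3 : 0 < x3) (l1 : s1 ≤ x1) (l2 : s2 ≤ x2) (l3 : s3 ≤ x3) :
    R s1 s2 s3 x1 x2 x3 where
  ar := h.ar.peel p1 p2 p3 l1 l2
  ar1 := (h.ar1.cast (y1 := (x1 + x3) + (x1 + x2 + x3) + 2 * (x2 + 2 * x3))
    (y2 := (x1 + x3) + 2 * (x1 + x2 + x3) + 3 * (x2 + 2 * x3))
    (y3 := (x1 + x3) + 2 * (x1 + x2 + x3) + 4 * (x2 + 2 * x3)) (by ring) (by ring)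
    (by ring)).peel (by omega) (by omega) (by omega) (by omega) (by omega)
  ar2 := (h.ar2.cast (y1 := (x1 + x2 + x3) + (2 * x2 + 2 * x3) + 2 * (x1 + x2 + 3 * x3))
    (y2 := (x1 + x2 + x3) + 2 * (2 * x2 + 2 * x3) + 3 * (x1 + x2 + 3 * x3))
    (y3 := (x1 + x2 + x3) + 2 * (2 * x2 + 2 * x3) + 4 * (x1 + x2 + 3 * x3)) (by ring) (by ring)
    (by ring)).peel (by omega) (by omega) (by omega) (by omega) (by omega)
  ar3 := (h.ar3.cast (y1 := (x2 + x3) + (x2 + 2 * x3) + 2 * (x1 + x2 + 2 * x3))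
    (y2 := (x2 + x3) + 2 * (x2 + 2 * x3) + 3 * (x1 + x2 + 2 * x3))
    (y3 := (x2 + x3) + 2 * (x2 + 2 * x3) + 4 * (x1 + x2 + 2 * x3)) (by ring) (by ring)
    (by ring)).peel (by omega) (by omega) (by omega) (by omega) (by omega)

/-- RIGIDITY, the finite tree. -/
theorem rigidity_step {s1 s2 s3 V1 V2 V3 : ℕ} (p1 : 0 < s1) (p2 : 0 < s2) (p3 : 0 < s3)
    (q1 : s1 < s2 + s3) (q2 : s2 < s1 + s3) (q3 : s3 < s1 + s2) (h : R s1 s2 s3 V1 V2 V3) :
    (V1 = s1 ∧ V2 = s2 ∧ V3 = s3) ∨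
    ∃ y1 y2 y3, V1 = y1 + y2 + 2 * y3 ∧ V2 = y1 + 2 * y2 + 3 * y3 ∧ V3 = y1 + 2 * y2 + 4 * y3 ∧
      R s1 s2 s3 y1 y2 y3 := by
  obtain ⟨h0, h1, h2, h3⟩ := h
  cases h0 with
  | base => exact Or.inl ⟨rfl, rfl, rfl⟩
  | @step2 a b c h0 =>
    exfalso
    obtain ⟨l1, l2, l3⟩ := h0.le
    obtain ⟨m1, m2, m3⟩ := h0.tri' q1 q2 q3
    rcases h1.inv1 (by omega) (by omega) with g | g
    · omega
    · have := g.tri (by omega) (by omega) (by omega)
      omega
  | @step3 a b c h0 =>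
    exfalso
    obtain ⟨l1, l2, l3⟩ := h0.le
    obtain ⟨m1, m2, m3⟩ := h0.tri' q1 q2 q3
    rcases h2.inv1 (by omega) (by omega) with g | g
    · omega
    · have := g.tri (by omega) (by omega) (by omega)
      omega
  | @step1 a b c h0 =>
    cases h0 with
    | base =>
      exfalso
      rcases h3.inv1 (by omega) (by omega) with g | g
      · omega
      · have := g.le
        omega
    | @step1 a b c h0 =>
      exfalso
      obtain ⟨l1, l2, l3⟩ := h0.le
      obtain ⟨m1, m2, m3⟩ := h0.tri' q1 q2 q3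
      rcases h2.inv1 (by omega) (by omega) with g | g
      · omega
      · rcases g.inv2 (by omega) (by omega) with g' | g'
        · omega
        · have := g'.tri (by omega) (by omega) (by omega)
          omega
    | @step3 a b c h0 =>
      exfalso
      obtain ⟨l1, l2, l3⟩ := h0.le
      obtain ⟨m1, m2, m3⟩ := h0.tri' q1 q2 q3
      rcases h1.inv1 (by omega) (by omega) with g | g
      · omega
      · rcases g.inv2 (by omega) (by omega) with g' | g'
        · omega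
        · have := g'.tri (by omega) (by omega) (by omega)
          omega
    | @step2 a b c h0 =>
      cases h0 with
      | base =>
        exfalso
        rcases h3.inv1 (by omega) (by omega) with g | g
        · omega
        · rcases g.inv2 (by omega) (by omega) with g' | g'
          · omega
          · have := g'.le
            omega
      | @step1 a b c h0 =>
        exfalso
        obtain ⟨l1, l2, l3⟩ := h0.le
        obtain ⟨m1, m2, m3⟩ := h0.tri' q1 q2 q3
        rcases h1.inv1 (by omega) (by omega) with g | g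
        · omega
        · rcases g.inv2 (by omega) (by omega) with g' | g'
          · omega
          · rcases g'.inv3 (by omega) (by omega) with g'' | g''
            · omega
            · have := g''.tri (by omega) (by omega) (by omega)
              omega
      | @step2 a b c h0 =>
        exfalso
        obtain ⟨l1, l2, l3⟩ := h0.le
        obtain ⟨m1, m2, m3⟩ := h0.tri' q1 q2 q3
        rcases h2.inv1 (by omega) (by omega) with g | g
        · omega
        · rcases g.inv2 (by omega) (by omega) with g' | g'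
          · omega
          · rcases g'.inv3 (by omega) (by omega) with g'' | g''
            · omega
            · have := g''.tri (by omega) (by omega) (by omega)
              omega
      | @step3 a b c h0 =>
        right
        obtain ⟨l1, l2, l3⟩ := h0.le
        refine ⟨a, b, c, by ring, by ring, by ring, ?_⟩
        have e1 : a + c + (b + c) = a + b + 2 * c := by ring
        have e2 : b + c + (a + c + (b + c)) = a + 2 * b + 3 * c := by ring
        have e3 : c + (b + c) + (a + c + (b + c)) = a + 2 * b + 4 * c := by ring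
        refine R.peel ⟨h0.push, ?_, ?_, ?_⟩ (by omega) (by omega) (by omega) l1 l2 l3
        · exact h1.cast (by omega) (by omega) (by omega)
        · exact h2.cast (by omega) (by omega) (by omega)
        · exact h3.cast (by omega) (by omega) (by omega)

/-- RIGIDITY: for seeds with strict triangle inequalities, the conditions for `1`, `1 + B`,
`1 + B ^ 2`, `B ^ 2` imply `V = A ^ m s`. -/
theorem rigidity {s1 s2 s3 : ℕ} (p1 : 0 < s1) (p2 : 0 < s2) (p3 : 0 < s3)
    (q1 : s1 < s2 + s3) (q2 : s2 < s1 + s3) (q3 : s3 < s1 + s2) (V1 V2 V3 : ℕ) :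
    R s1 s2 s3 V1 V2 V3 ↔ ∃ m : ℕ, (V1, V2, V3) = Am^[m] (s1, s2, s3) := by
  constructor
  · have key : ∀ n V1 V2 V3 : ℕ, V1 + V2 + V3 ≤ n → R s1 s2 s3 V1 V2 V3 →
        ∃ m : ℕ, (V1, V2, V3) = Am^[m] (s1, s2, s3) := by
      intro n
      induction n with
      | zero =>
        intro V1 V2 V3 hn h
        have := h.ar.le
        omega
      | succ n ih =>
        intro V1 V2 V3 hn h
        rcases rigidity_step p1 p2 p3 q1 q2 q3 h with ⟨rfl, rfl, rfl⟩ | ⟨y1, y2, y3, rfl, rfl, rfl, hy⟩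
        · exact ⟨0, rfl⟩
        · have := hy.ar.le
          obtain ⟨m, hm⟩ := ih y1 y2 y3 (by omega) hy
          exact ⟨m + 1, by rw [Function.iterate_succ_apply', ← hm]; rfl⟩
    exact key _ V1 V2 V3 le_rfl
  · rintro ⟨m, hm⟩
    induction m generalizing V1 V2 V3 with
    | zero =>
      simp only [Function.iterate_zero, id_eq, Prod.mk.injEq] at hm
      obtain ⟨rfl, rfl, rfl⟩ := hm
      exact R.refl _ _ _
    | succ m ih =>
      rw [Function.iterate_succ_apply'] at hm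
      rcases hy : Am^[m] (s1, s2, s3) with ⟨y1, y2, y3⟩
      have h1 := ih y1 y2 y3 hy.symm
      rw [hy] at hm
      simp only [Am, Prod.mk.injEq] at hm
      obtain ⟨rfl, rfl, rfl⟩ := hm
      exact h1.push

/-! ### The sequence `A ^ k 1` -/

/-- The vectors `A ^ k 1`. -/
def av (k : ℕ) : ℕ × ℕ × ℕ := Am^[k] (1, 1, 1)

/-- The first coordinate of `A ^ k 1`. -/
def af (k : ℕ) : ℕ := (av k).1

theorem av_succ (k : ℕ) : av (k + 1) = Am (av k) := Function.iterate_succ_apply' _ _ _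

theorem Am_add (x y : ℕ × ℕ × ℕ) : Am (x + y) = Am x + Am y := by
  obtain ⟨x1, x2, x3⟩ := x
  obtain ⟨y1, y2, y3⟩ := y
  simp only [Am, Prod.mk_add_mk, Prod.mk.injEq]
  refine ⟨by ring, by ring, by ring⟩

theorem Am_iter_add (k : ℕ) (x y : ℕ × ℕ × ℕ) : Am^[k] (x + y) = Am^[k] x + Am^[k] y := by
  induction k with
  | zero => rfl
  | succ k ih => rw [Function.iterate_succ_apply', Function.iterate_succ_apply',
      Function.iterate_succ_apply', ih, Am_add]

theorem av_add (j k : ℕ) : Am^[j] (av k) = av (j + k) := (Function.iterate_add_apply _ _ _ _).symm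

/-- The shape of the vectors. -/
theorem av_shape (k : ℕ) : 0 < (av k).1 ∧ (av k).1 ≤ (av k).2.1 ∧ (av k).2.1 ≤ (av k).2.2 ∧
    (av k).2.2 ≤ 2 * (av k).1 ∧ (av k).2.2 < (av k).1 + (av k).2.1 ∧
    5 * (av k).2.1 ≤ 8 * (av k).1 := by
  induction k with
  | zero => decide
  | succ k ih =>
    rw [av_succ]
    simp only [Am]
    omega

theorem af_succ (k : ℕ) : 2 * af k < af (k + 1) ∧ af (k + 1) ≤ 8 * af k := by
  have h := av_shape k
  unfold af
  rw [av_succ]
  simp only [Am]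
  omega

theorem af_zero : af 0 = 1 := rfl

theorem af_pos (k : ℕ) : 0 < af k := (av_shape k).1

theorem af_strictMono : StrictMono af :=
  strictMono_nat_of_lt_succ fun k => by
    have := af_succ k
    have := af_pos k
    omega

theorem af_pair {a b c d : ℕ} (hab : b ≤ a) (hcd : d ≤ c) (h : af a + af b = af c + af d) :
    a = c ∧ b = d := by
  have key : ∀ {a b c d : ℕ}, b ≤ a → d ≤ c → af a + af b = af c + af d → ¬ c < a := by
    intro a b c d hab hcd h hlt
    have h1 : af (c + 1) ≤ af a := af_strictMono.monotone hlt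
    have h2 := (af_succ c).1
    have h3 : af d ≤ af c := af_strictMono.monotone hcd
    have h4 := af_pos b
    omega
  have h1 : a = c := le_antisymm (not_lt.1 (key hab hcd h)) (not_lt.1 (key hcd hab h.symm))
  subst h1
  exact ⟨rfl, af_strictMono.injective (by omega)⟩

theorem R_av {s : ℕ × ℕ × ℕ} (hs : 0 < s.1 ∧ 0 < s.2.1 ∧ 0 < s.2.2 ∧ s.1 < s.2.1 + s.2.2 ∧
    s.2.1 < s.1 + s.2.2 ∧ s.2.2 < s.1 + s.2.1) (V : ℕ × ℕ × ℕ) :
    R s.1 s.2.1 s.2.2 V.1 V.2.1 V.2.2 ↔ ∃ m : ℕ, V = Am^[m] s :=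
  rigidity hs.1 hs.2.1 hs.2.2.1 hs.2.2.2.1 hs.2.2.2.2.1 hs.2.2.2.2.2 V.1 V.2.1 V.2.2

/-- STEP (3): the definition of the pairs `(A ^ k 1, A ^ (2 k) 1)`. -/
theorem pair_iff (P Q : ℕ × ℕ × ℕ) :
    (R 1 1 1 P.1 P.2.1 P.2.2 ∧ R P.1 P.2.1 P.2.2 Q.1 Q.2.1 Q.2.2 ∧
      R (P.1 + 1) (P.2.1 + 1) (P.2.2 + 1) (P.1 + Q.1) (P.2.1 + Q.2.1) (P.2.2 + Q.2.2)) ↔
    ∃ k : ℕ, P = av k ∧ Q = av (2 * k) := by
  have t1 : ∀ k, 0 < (av k).1 ∧ 0 < (av k).2.1 ∧ 0 < (av k).2.2 ∧
      (av k).1 < (av k).2.1 + (av k).2.2 ∧ (av k).2.1 < (av k).1 + (av k).2.2 ∧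
      (av k).2.2 < (av k).1 + (av k).2.1 := fun k => by
    have := av_shape k
    omega
  have t2 : ∀ k, 0 < (av k + (1, 1, 1)).1 ∧ 0 < (av k + (1, 1, 1)).2.1 ∧
      0 < (av k + (1, 1, 1)).2.2 ∧
      (av k + (1, 1, 1)).1 < (av k + (1, 1, 1)).2.1 + (av k + (1, 1, 1)).2.2 ∧
      (av k + (1, 1, 1)).2.1 < (av k + (1, 1, 1)).1 + (av k + (1, 1, 1)).2.2 ∧
      (av k + (1, 1, 1)).2.2 < (av k + (1, 1, 1)).1 + (av k + (1, 1, 1)).2.1 := fun k => by
    have := t1 k
    simp only [Prod.fst_add, Prod.snd_add]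
    omega
  have h1 : R 1 1 1 P.1 P.2.1 P.2.2 ↔ ∃ k : ℕ, P = av k := R_av (t1 0) P
  constructor
  · rintro ⟨r1, r2, r3⟩
    obtain ⟨k, rfl⟩ := h1.1 r1
    obtain ⟨m, rfl⟩ := (R_av (t1 k) Q).1 r2
    obtain ⟨l, hl⟩ := (R_av (t2 k) (av k + Am^[m] (av k))).1 r3
    rw [Am_iter_add, av_add, av_add] at hl
    have h2 : av l = Am^[l] (1, 1, 1) := rfl
    rw [← h2] at hl
    have h3 : af (m + k) + af k = af (l + k) + af l := by
      have := congrArg Prod.fst hl
      simp only [Prod.fst_add] at this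
      unfold af
      omega
    obtain ⟨e1, e2⟩ := af_pair (by omega) (by omega) h3
    have e3 : m = k := by omega
    subst e3
    exact ⟨m, rfl, by rw [av_add, two_mul]⟩
  · rintro ⟨k, rfl, rfl⟩
    refine ⟨h1.2 ⟨k, rfl⟩, (R_av (t1 k) _).2 ⟨k, by rw [av_add, two_mul]⟩, ?_⟩
    refine (R_av (t2 k) (av k + av (2 * k))).2 ⟨k, ?_⟩
    rw [Am_iter_add, av_add, two_mul]
    exact add_comm _ _

/-! ### Growth -/

theorem Am_iter_mono (k : ℕ) {x y : ℕ × ℕ × ℕ} (h : x.1 ≤ y.1 ∧ x.2.1 ≤ y.2.1 ∧ x.2.2 ≤ y.2.2) :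
    (Am^[k] x).1 ≤ (Am^[k] y).1 ∧ (Am^[k] x).2.1 ≤ (Am^[k] y).2.1 ∧
      (Am^[k] x).2.2 ≤ (Am^[k] y).2.2 := by
  induction k with
  | zero => exact h
  | succ k ih =>
    rw [Function.iterate_succ_apply', Function.iterate_succ_apply']
    simp only [Am]
    omega

theorem Am_iter_const (k c : ℕ) : Am^[k] (c, c, c) =
    (c * (av k).1, c * (av k).2.1, c * (av k).2.2) := by
  induction k with
  | zero => simp [av]
  | succ k ih =>
    rw [Function.iterate_succ_apply', ih, av_succ]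
    simp only [Am, Prod.mk.injEq]
    refine ⟨by ring, by ring, by ring⟩

theorem af_two_mul (k : ℕ) : af k ^ 2 ≤ af (2 * k) ∧ af (2 * k) ≤ 2 * af k ^ 2 := by
  have h := av_shape k
  have e : av (2 * k) = Am^[k] (av k) := by rw [av_add, two_mul]
  constructor
  · have h1 := (Am_iter_mono k (x := ((av k).1, (av k).1, (av k).1)) (y := av k)
      ⟨le_rfl, h.2.1, h.2.1.trans h.2.2.1⟩).1
    rw [Am_iter_const, ← e] at h1
    rw [sq]
    exact h1
  · have h1 := (Am_iter_mono k (x := av k) (y := (2 * (av k).1, 2 * (av k).1, 2 * (av k).1))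
      ⟨by change (av k).1 ≤ 2 * (av k).1; omega, by change (av k).2.1 ≤ 2 * (av k).1; omega,
        h.2.2.2.1⟩).1
    rw [Am_iter_const, ← e] at h1
    unfold af
    calc (av (2 * k)).1 ≤ 2 * (av k).1 * (av k).1 := h1
      _ = 2 * (av k).1 ^ 2 := by ring

/-- Every number is comparable with some `A ^ k 1`. -/
theorem exists_af {X : ℕ} (hX : 0 < X) : ∃ k, af k ≤ X ∧ X < 8 * af k := by
  classical
  have h1 : ∃ k, X < af k := by
    refine ⟨X + 1, ?_⟩
    have := af_strictMono.le_apply (x := X + 1)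
    omega
  have h2 := Nat.find_spec h1
  rcases Nat.eq_zero_or_pos (Nat.find h1) with h3 | h3
  · rw [h3, af_zero] at h2
    omega
  · have h4 : ¬ X < af (Nat.find h1 - 1) := Nat.find_min h1 (by omega)
    have h5 := (af_succ (Nat.find h1 - 1)).2
    have h6 : Nat.find h1 - 1 + 1 = Nat.find h1 := by omega
    rw [h6] at h5
    exact ⟨Nat.find h1 - 1, by omega, by omega⟩

/-! ### The same for vectors -/

theorem ar_iff (s V : V3) : AR s V ↔ AT (s 0) (s 1) (s 2) (V 0) (V 1) (V 2) := by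
  constructor
  · intro h
    induction h with
    | refl => exact .base
    | step j V _ ih =>
      fin_cases j
      · exact ih.step1.cast (by simp [op]) (by simp [op]) (by simp [op])
      · exact ih.step2.cast (by simp [op]) (by simp [op]) (by simp [op])
      · exact ih.step3.cast (by simp [op]) (by simp [op]) (by simp [op])
  · have key : ∀ {a b c : ℕ}, AT (s 0) (s 1) (s 2) a b c → AR s ![a, b, c] := by
      intro a b c h
      induction h with
      | base =>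
        have : (![s 0, s 1, s 2] : V3) = s := by
          funext i
          fin_cases i <;> rfl
        rw [this]
        exact .refl
      | @step1 a b c _ ih =>
        have : (![a, b + a, c + a] : V3) = op 0 ![a, b, c] := by
          funext i
          fin_cases i <;> simp [op]
        rw [this]
        exact .step _ _ ih
      | @step2 a b c _ ih =>
        have : (![a + b, b, c + b] : V3) = op 1 ![a, b, c] := by
          funext i
          fin_cases i <;> simp [op]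
        rw [this]
        exact .step _ _ ih
      | @step3 a b c _ ih =>
        have : (![a + c, b + c, c] : V3) = op 2 ![a, b, c] := by
          funext i
          fin_cases i <;> simp [op]
        rw [this]
        exact .step _ _ ih
    intro h
    have h1 := key h
    have : (![V 0, V 1, V 2] : V3) = V := by
      funext i
      fin_cases i <;> rfl
    rwa [this] at h1

/-- The matrices `1`, `1 + B`, `1 + B ^ 2`, `B ^ 2`, where `B x = (x 2, x 0 + x 2, x 1 + x 2)`. -/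
def TT (i : Fin 4) (V : V3) : V3 :=
  ![V, ![V 0 + V 2, V 0 + V 1 + V 2, V 1 + 2 * V 2],
    ![V 0 + V 1 + V 2, 2 * V 1 + 2 * V 2, V 0 + V 1 + 3 * V 2],
    ![V 1 + V 2, V 1 + 2 * V 2, V 0 + V 1 + 2 * V 2]] i

theorem R_iff (s V : V3) : R (s 0) (s 1) (s 2) (V 0) (V 1) (V 2) ↔
    ∀ i, AR (TT i s) (TT i V) := by
  simp only [ar_iff]
  constructor
  · rintro ⟨h0, h1, h2, h3⟩ i
    fin_cases i
    · exact h0
    · exact h1
    · exact h2
    · exact h3
  · intro h
    exact ⟨h 0, h 1, h 2, h 3⟩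

/-- The vectors `A ^ k 1`. -/
def aw (k : ℕ) : V3 := ![(av k).1, (av k).2.1, (av k).2.2]

theorem aw_zero_coord (k : ℕ) : aw k 0 = af k := rfl

/-- STEP (3), final form: `P = A ^ k 1` and `Q = A ^ (2 k) 1` for some `k`. -/
theorem pair_iff' (P Q : V3) :
    ((∀ i, AR (TT i 1) (TT i P)) ∧ (∀ i, AR (TT i P) (TT i Q)) ∧
      (∀ i, AR (TT i (P + 1)) (TT i (P + Q)))) ↔ ∃ k, P = aw k ∧ Q = aw (2 * k) := by
  rw [← R_iff, ← R_iff, ← R_iff]
  have h := pair_iff (P 0, P 1, P 2) (Q 0, Q 1, Q 2)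
  refine Iff.trans ?_ (h.trans ?_)
  · exact Iff.rfl
  · refine exists_congr fun k => and_congr ?_ ?_
    · constructor
      · intro h
        funext i
        fin_cases i
        · exact (congrArg Prod.fst h)
        · exact (congrArg (fun x : ℕ × ℕ × ℕ => x.2.1) h)
        · exact (congrArg (fun x : ℕ × ℕ × ℕ => x.2.2) h)
      · rintro rfl
        rfl
    · constructor
      · intro h
        funext i
        fin_cases i
        · exact (congrArg Prod.fst h)
        · exact (congrArg (fun x : ℕ × ℕ × ℕ => x.2.1) h)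
        · exact (congrArg (fun x : ℕ × ℕ × ℕ => x.2.2) h)
      · rintro rfl
        rfl

end Pool.WL
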