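import Mathlib
import Pool.Agent.Lib.MP_57b0a1_wl.ARDef

/-!
# MP_57b0a1: words, the Arnoux-Rauzy relation

`op j V` adds the coordinate `j` of `V` to the two other coordinates, `AR s V` says that `V` is
obtained from the seed `s` by applying such operations.  The relation `AR s V ∧ V ≠ s` is
expressed by word equations and length constraints (`sound`, `complete`).
-/

set_option autoImplicit false

namespace Pool.WL

/-- The word `a ^ (n - 1) b`. -/
def uw {α : Type*} (a b : α) (n : ℕ) : List α := List.replicate (n - 1) a ++ [b]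

/-- The letters of the word `a ^ (n - 1) b`. -/
def ul {α : Type*} (a b : α) (n t : ℕ) : α := if t + 1 = n then b else a

/-- Six distinct letters. -/
structure Six {α : Type*} (a b : Fin 3 → α) : Prop where
  aa : ∀ i j, a i = a j → i = j
  bb : ∀ i j, b i = b j → i = j
  ab : ∀ i j, a i ≠ b j

section core

variable {α : Type*} {a b : Fin 3 → α}

lemma Six.ul_ne (h : Six a b) {i k : Fin 3} (hik : i ≠ k) (m t m' t' : ℕ) :
    ul (a i) (b i) m t ≠ ul (a k) (b k) m' t' := by
  unfold ul
  split_ifs
  · exact fun e => hik (h.bb _ _ e)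
  · exact fun e => h.ab _ _ e.symm
  · exact h.ab _ _
  · exact fun e => hik (h.aa _ _ e)

variable (a b) in
/-- The letters of the word `w u_i`, where `w` has length `n`. -/
def X (w : ℕ → α) (s : V3) (n : ℕ) (i : Fin 3) (t : ℕ) : α :=
  if t < n then w t else ul (a i) (b i) (s i) (t - n)

lemma X_lt {w : ℕ → α} {s : V3} {n : ℕ} {i : Fin 3} {t : ℕ} (h : t < n) :
    X a b w s n i t = w t := if_pos h

lemma X_ge {w : ℕ → α} {s : V3} {n : ℕ} {i : Fin 3} {t : ℕ} (h : n ≤ t) :
    X a b w s n i t = ul (a i) (b i) (s i) (t - n) := if_neg (by omega)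

lemma ul_last {a b : α} {n t : ℕ} (h : t + 1 = n) : ul a b n t = b := if_pos h

lemma ul_a {a b : α} {n t : ℕ} (h : t + 1 ≠ n) : ul a b n t = a := if_neg h

variable (a b) in
/-- The condition on the word `w` of length `n`. -/
structure Cn (w : ℕ → α) (s V : V3) (n : ℕ) : Prop where
  len : 2 * n + (s 0 + s 1 + s 2) = V 0 + V 1 + V 2
  per : ∀ i t, t + V i < n + s i → X a b w s n i t = X a b w s n i (t + V i)
  start : ∃ j, s j ≤ n ∧ ∀ t < s j, w t = ul (a j) (b j) (s j) t

lemma sum_le_of {s V : V3} (h : ∀ i, s i ≤ V i) (he : V 0 + V 1 + V 2 = s 0 + s 1 + s 2) :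
    V = s := by
  have h0 := h 0
  have h1 := h 1
  have h2 := h 2
  funext i
  fin_cases i
  · show V 0 = s 0
    omega
  · show V 1 = s 1
    omega
  · show V 2 = s 2
    omega

lemma sum_op (j : Fin 3) (V : V3) :
    op j V 0 + op j V 1 + op j V 2 = V 0 + V 1 + V 2 + 2 * V j := by
  fin_cases j <;> simp [op] <;> ring

lemma op_self (j : Fin 3) (V : V3) : op j V j = V j := if_pos rfl

lemma op_ne {i j : Fin 3} (h : i ≠ j) (V : V3) : op j V i = V i + V j := if_neg h

/-- Soundness: the word condition implies the relation `AR`. -/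
theorem Cn.ar (H : Six a b) {w : ℕ → α} {s : V3} (hs : ∀ i, 1 ≤ s i) :
    ∀ (n : ℕ) (V : V3), (∀ i, 1 ≤ V i) → Cn a b w s V n → AR s V := by
  intro n
  induction n using Nat.strong_induction_on with
  | _ n ih =>
  intro V hV C
  obtain ⟨j, hjn, hj⟩ := C.start
  have hn : 1 ≤ n := (hs j).trans hjn
  -- (a)
  have ha : ∀ i, s i ≤ V i := by
    intro i
    by_contra hlt
    rw [not_le] at hlt
    have h1 := C.per i (n + s i - 1 - V i) (by have := hV i; omega)
    rw [X_ge (by omega), X_ge (by omega), ul_a (by have := hV i; omega),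
      ul_last (by have := hV i; omega)] at h1
    exact H.ab _ _ h1
  -- (b)
  have hb : ∀ i, V i ≤ n ∨ n + s i ≤ V i := by
    intro i
    by_contra hcon
    rw [not_or, not_le, not_le] at hcon
    obtain ⟨h1, h2⟩ := hcon
    by_cases hij : j = i
    · subst hij
      have h3 := C.per j (n + s j - 1 - V j) (by omega)
      have h4 := ha j
      rw [X_lt (by omega), X_ge (by omega), ul_last (t := n + s j - 1 - V j + V j - n) (by omega),
        hj _ (by omega), ul_a (by omega)] at h3
      exact H.ab _ _ h3
    · have h3 := C.per i 0 (by omega)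
      rw [X_lt (by omega), X_ge (by omega), hj 0 (by have := hs j; omega)] at h3
      exact H.ul_ne hij _ _ _ _ h3
  -- the minimum
  obtain ⟨k, hk⟩ : ∃ k, ∀ i, V k ≤ V i := by
    obtain ⟨k, -, hk⟩ := Finset.exists_min_image (Finset.univ : Finset (Fin 3)) V
      ⟨0, Finset.mem_univ _⟩
    exact ⟨k, fun i => hk i (Finset.mem_univ _)⟩
  have hkn : V k ≤ n := by
    rcases hb k with h | h
    · exact h
    · exfalso
      have h3 : ∀ i, n + s i ≤ V i := by
        intro i
        rcases hb i with h' | h'
        · have := hk i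
          have := hs k
          omega
        · exact h'
      have h0 := h3 0
      have h1 := h3 1
      have h2 := h3 2
      have := C.len
      omega
  have hwk : ∀ t, t + V k < n → w t = w (t + V k) := by
    intro t ht
    have h1 := C.per k t (by omega)
    rwa [X_lt (by omega), X_lt ht] at h1
  -- (d)
  have hd : ∀ i, i ≠ k → V k + s i ≤ V i := by
    intro i hik
    rcases hb i with h | h
    · by_contra hlt
      rw [not_le] at hlt
      have hki := hk i
      have hai := ha i
      have h1 := C.per i (n - V k) (by omega)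
      have h2 := C.per k (n - V k) (by have := hs k; omega)
      have hVk := hV k
      rw [X_lt (by omega), X_ge (by omega)] at h1 h2
      rw [h1] at h2
      exact H.ul_ne hik _ _ _ _ h2
    · omega
  -- the new vector
  set V' : V3 := fun i => if i = k then V k else V i - V k with hV'
  have hV'k : V' k = V k := if_pos rfl
  have hV'i : ∀ i, i ≠ k → V' i = V i - V k := fun i hi => if_neg hi
  have hop : op k V' = V := by
    funext i
    by_cases hi : i = k
    · subst hi
      rw [op_self, hV'k]
    · rw [op_ne hi, hV'k, hV'i i hi]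
      have := hd i hi
      omega
  have hsV' : ∀ i, s i ≤ V' i := by
    intro i
    by_cases hi : i = k
    · subst hi
      rw [hV'k]
      exact ha i
    · rw [hV'i i hi]
      have := hd i hi
      omega
  have hsum := sum_op k V'
  rw [hop, hV'k] at hsum
  have hlen' : 2 * (n - V k) + (s 0 + s 1 + s 2) = V' 0 + V' 1 + V' 2 := by
    have := C.len
    omega
  have hX : ∀ i t, X a b w s (n - V k) i t = X a b w s n i (t + V k) := by
    intro i t
    by_cases ht : t < n - V k
    · rw [X_lt ht, X_lt (by omega)]
      exact hwk t (by omega)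
    · rw [X_ge (by omega), X_ge (by omega)]
      congr 1
      omega
  have hper' : ∀ i t, t + V' i < (n - V k) + s i →
      X a b w s (n - V k) i t = X a b w s (n - V k) i (t + V' i) := by
    intro i t ht
    rw [hX, hX]
    by_cases hi : i = k
    · subst hi
      rw [hV'k] at ht ⊢
      exact C.per i (t + V i) (by omega)
    · rw [hV'i i hi] at ht ⊢
      have h1 := hd i hi
      have h2 := C.per i t (by omega)
      have h3 : t + (V i - V k) + V k = t + V i := by omega
      rw [h3, ← h2, X_lt (by omega), X_lt (by omega)]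
      exact (hwk t (by omega)).symm
  rw [← hop]
  refine AR.step k V' ?_
  by_cases hcase : s j ≤ n - V k
  · exact ih (n - V k) (by have := hV k; omega) V' (fun i => (hs i).trans (hsV' i))
      ⟨hlen', hper', j, hcase, hj⟩
  · rw [not_le] at hcase
    have hn0 : n - V k = 0 := by
      by_contra hne
      have hVk := hV k
      have hjk : j = k := by
        by_contra hjk
        have h1 := C.per k (n - V k) (by have := hs k; omega)
        rw [X_lt (by omega), X_ge (by omega), hj _ hcase] at h1
        exact H.ul_ne hjk _ _ _ _ h1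
      subst hjk
      have h1 := C.per j (s j - 1) (by have := ha j; omega)
      rw [X_lt (by have := hs j; omega), X_ge (by omega), hj _ (by have := hs j; omega),
        ul_last (by have := hs j; omega), ul_a (by have := hs j; omega)] at h1
      exact H.ab _ _ h1.symm
    rw [sum_le_of hsV' (by omega)]
    exact AR.refl

/-- Completeness: the relation `AR` implies the existence of a word. -/
theorem AR.exists_cn {s V : V3} (h : AR s V) :
    ∃ (w : ℕ → α) (n : ℕ), 2 * n + (s 0 + s 1 + s 2) = V 0 + V 1 + V 2 ∧
      (∀ i t, t + V i < n + s i → X a b w s n i t = X a b w s n i (t + V i)) ∧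
      (n = 0 ∧ V = s ∨ ∃ j, s j ≤ n ∧ ∀ t < s j, w t = ul (a j) (b j) (s j) t) ∧
      (∀ i, s i ≤ V i) ∧ (∀ i, V i ≤ n + s i) ∧ ∀ t < n, ∃ i, w t = a i ∨ w t = b i := by
  induction h with
  | refl =>
    refine ⟨fun _ => a 0, 0, by omega, fun i t ht => by omega, Or.inl ⟨rfl, rfl⟩,
      fun i => le_rfl, fun i => by omega, fun t ht => by omega⟩
  | step j V' _ ih =>
    obtain ⟨w', n', hlen, hper, hst, hsV, hVn, hlet⟩ := ih
    set w : ℕ → α := fun t => if t < V' j then X a b w' s n' j t else w' (t - V' j) with hw
    have hw1 : ∀ t, t < V' j → w t = X a b w' s n' j t := fun t ht => if_pos ht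
    have hw2 : ∀ t, w (t + V' j) = w' t := by
      intro t
      rw [hw]
      show (if t + V' j < V' j then _ else w' (t + V' j - V' j)) = w' t
      rw [if_neg (by omega), Nat.add_sub_cancel]
    have hK2 : ∀ t, t < n' + s j → w t = X a b w' s n' j t := by
      intro t ht
      by_cases h1 : t < V' j
      · exact hw1 t h1
      · obtain ⟨u, rfl⟩ : ∃ u, t = u + V' j := ⟨t - V' j, by omega⟩
        rw [hw2, ← hper j u ht, X_lt]
        have := hsV j
        omega
    have hK : ∀ t, t < n' → w t = w' t := by
      intro t ht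
      rw [hK2 t (by omega), X_lt ht]
    have hul : ∀ (k : Fin 3) (m t : ℕ), ∃ i, ul (a k) (b k) m t = a i ∨ ul (a k) (b k) m t = b i := by
      intro k m t
      refine ⟨k, ?_⟩
      unfold ul
      split_ifs
      · exact Or.inr rfl
      · exact Or.inl rfl
    refine ⟨w, n' + V' j, ?_, ?_, ?_, ?_, ?_, ?_⟩
    · rw [sum_op]
      omega
    · intro i t ht
      have hsj := hsV j
      by_cases hi : i = j
      · subst hi
        rw [op_self] at ht ⊢
        rw [X_lt (by omega), hK2 t (by omega)]
        by_cases h1 : t < n'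
        · rw [X_lt h1, X_lt (by omega), hw2]
        · rw [X_ge (by omega), X_ge (by omega)]
          congr 1
          omega
      · rw [op_ne hi] at ht ⊢
        have hsi := hsV i
        have h2 := hper i t (by omega)
        rw [X_lt (show t < n' by omega)] at h2
        rw [X_lt (by omega), hK t (by omega), h2]
        by_cases h1 : t + V' i < n'
        · rw [X_lt h1, X_lt (by omega), ← add_assoc, hw2]
        · rw [X_ge (by omega), X_ge (by omega)]
          congr 1
          omega
    · refine Or.inr ?_
      rcases hst with ⟨h0, h1⟩ | ⟨k, hk, h1⟩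
      · refine ⟨j, ?_, fun t ht => ?_⟩
        · have := hsV j
          omega
        · rw [hK2 t (by omega), X_ge (by omega)]
          congr 1
          omega
      · exact ⟨k, by omega, fun t ht => by rw [hK t (by omega), h1 t ht]⟩
    · intro i
      by_cases hi : i = j
      · subst hi
        rw [op_self]
        exact hsV i
      · rw [op_ne hi]
        have := hsV i
        omega
    · intro i
      by_cases hi : i = j
      · subst hi
        rw [op_self]
        have := hVn i
        omega
      · rw [op_ne hi]
        have := hVn i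
        omega
    · intro t ht
      by_cases h1 : t < V' j
      · rw [hw1 t h1]
        by_cases h2 : t < n'
        · rw [X_lt h2]
          exact hlet t h2
        · rw [X_ge (by omega)]
          exact hul _ _ _
      · obtain ⟨u, rfl⟩ : ∃ u, t = u + V' j := ⟨t - V' j, by omega⟩
        rw [hw2]
        exact hlet u (by omega)

end core

section lists

variable {α : Type*}

lemma length_uw (a b : α) {n : ℕ} (hn : 1 ≤ n) : (uw a b n).length = n := by
  unfold uw
  rw [List.length_append, List.length_replicate, List.length_singleton]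
  omega

lemma uw_ne_nil (a b : α) (n : ℕ) : uw a b n ≠ [] := by
  unfold uw
  exact List.append_ne_nil_of_right_ne_nil _ (List.cons_ne_nil _ _)

lemma getElem?_uw (a b : α) {n t : ℕ} (ht : t < n) : (uw a b n)[t]? = some (ul a b n t) := by
  unfold uw ul
  by_cases h : t + 1 = n
  · rw [if_pos h, List.getElem?_append_right (by rw [List.length_replicate]; omega),
      List.length_replicate]
    have : t - (n - 1) = 0 := by omega
    rw [this]
    rfl
  · rw [if_neg h, List.getElem?_append_left (by rw [List.length_replicate]; omega),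
      List.getElem?_replicate]
    rw [if_pos (by omega)]

lemma mem_uw {a b c : α} {n : ℕ} (h : c ∈ uw a b n) : c = a ∨ c = b := by
  unfold uw at h
  rcases List.mem_append.1 h with h | h
  · exact Or.inl (List.eq_of_mem_replicate h)
  · exact Or.inr (List.mem_singleton.1 h)

/-- From an equation to a period. -/
lemma period_of_eq {x y z : List α} (h : x ++ y = y ++ z) {t : ℕ} (ht : t + x.length < y.length) :
    y[t]? = y[t + x.length]? := by
  have h1 : (x ++ y)[t + x.length]? = y[t]? := by
    rw [List.getElem?_append_right (by omega), Nat.add_sub_cancel]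
  have h2 : (y ++ z)[t + x.length]? = y[t + x.length]? :=
    List.getElem?_append_left (by omega)
  rw [← h1, ← h2, h]

/-- From a period to an equation. -/
lemma eq_of_period {y : List α} {p : ℕ} (hp : p ≤ y.length)
    (h : ∀ t, t + p < y.length → y[t]? = y[t + p]?) :
    ∃ x z : List α, x ++ y = y ++ z ∧ x.length = p ∧ z.length = p ∧ (∀ c ∈ x, c ∈ y) ∧
      ∀ c ∈ z, c ∈ y := by
  refine ⟨y.take p, y.drop (y.length - p), ?_, ?_, ?_, fun c hc => List.mem_of_mem_take hc,
    fun c hc => List.mem_of_mem_drop hc⟩
  · have h1 : y.drop p = y.take (y.length - p) := by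
      apply List.ext_getElem?
      intro t
      rw [List.getElem?_drop, List.getElem?_take]
      by_cases ht : t < y.length - p
      · rw [if_pos ht, h t (by omega), add_comm]
      · rw [if_neg ht, List.getElem?_eq_none (by omega)]
    calc y.take p ++ y = y.take p ++ (y.take (y.length - p) ++ y.drop (y.length - p)) := by
          rw [List.take_append_drop]
      _ = (y.take p ++ y.drop p) ++ y.drop (y.length - p) := by rw [h1, List.append_assoc]
      _ = y ++ y.drop (y.length - p) := by rw [List.take_append_drop]
  · rw [List.length_take]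
    omega
  · rw [List.length_drop]
    omega

variable {a b : Fin 3 → α}

lemma getElem?_X {w : List α} {s : V3} (i : Fin 3) {t : ℕ}
    (ht : t < w.length + s i) :
    (w ++ uw (a i) (b i) (s i))[t]? =
      some (X a b (fun t => w.getD t (a 0)) s w.length i t) := by
  by_cases h : t < w.length
  · rw [X_lt h, List.getElem?_append_left h, List.getD_eq_getElem?_getD, List.getElem?_eq_getElem h]
    rfl
  · rw [X_ge (by omega), List.getElem?_append_right (by omega), getElem?_uw _ _ (by omega)]

/-- Soundness. -/
theorem sound (H : Six a b) {s V : V3} (hs : ∀ i, 1 ≤ s i) (hV : ∀ i, 1 ≤ V i) {w : List α}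
    (hlen : 2 * w.length + (s 0 + s 1 + s 2) = V 0 + V 1 + V 2)
    (hst : ∃ j, uw (a j) (b j) (s j) <+: w)
    (hper : ∀ i, ∃ x z : List α, x ++ (w ++ uw (a i) (b i) (s i)) =
      (w ++ uw (a i) (b i) (s i)) ++ z ∧ x.length = V i) : AR s V ∧ V ≠ s := by
  obtain ⟨j, v, hv⟩ := hst
  have hwl : s j ≤ w.length := by
    rw [← hv, List.length_append, length_uw _ _ (hs j)]
    omega
  constructor
  · refine Cn.ar H (w := fun t => w.getD t (a 0)) hs w.length V hV ⟨hlen, fun i t ht => ?_, j, hwl,
      fun t ht => ?_⟩
    · obtain ⟨x, z, hxz, hx⟩ := hper i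
      have h1 := period_of_eq hxz (t := t) (by
        rw [List.length_append, length_uw _ _ (hs i), hx]
        exact ht)
      rw [hx, getElem?_X i (by omega), getElem?_X i ht] at h1
      exact Option.some_injective _ h1
    · have h1 : w[t]? = some (ul (a j) (b j) (s j) t) := by
        rw [← hv, List.getElem?_append_left (by rw [length_uw _ _ (hs j)]; exact ht),
          getElem?_uw _ _ ht]
      show w.getD t (a 0) = _
      rw [List.getD_eq_getElem?_getD, h1]
      rfl
  · rintro rfl
    have := hs j
    omega

/-- Completeness. -/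
theorem complete {s V : V3} (hs : ∀ i, 1 ≤ s i) (h : AR s V) (hne : V ≠ s) (a b : Fin 3 → α) :
    ∃ w : List α, w ≠ [] ∧ (∀ c ∈ w, ∃ i, c = a i ∨ c = b i) ∧
      2 * w.length + (s 0 + s 1 + s 2) = V 0 + V 1 + V 2 ∧
      (∃ j, uw (a j) (b j) (s j) <+: w) ∧
      ∀ i, ∃ x z : List α, x ++ (w ++ uw (a i) (b i) (s i)) =
        (w ++ uw (a i) (b i) (s i)) ++ z ∧ x.length = V i ∧ z.length = V i ∧
        (∀ c ∈ x, ∃ i, c = a i ∨ c = b i) ∧ ∀ c ∈ z, ∃ i, c = a i ∨ c = b i := by
  obtain ⟨w, n, hlen, hper, hst, hsV, hVn, hlet⟩ := AR.exists_cn (a := a) (b := b) h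
  obtain ⟨j, hjn, hj⟩ : ∃ j, s j ≤ n ∧ ∀ t < s j, w t = ul (a j) (b j) (s j) t := by
    rcases hst with h1 | h1
    · exact absurd h1.2 hne
    · exact h1
  have hL : ((List.range n).map w).length = n := by
    rw [List.length_map, List.length_range]
  have hLt : ∀ t < n, ((List.range n).map w)[t]? = some (w t) := by
    intro t ht
    rw [List.getElem?_map, List.getElem?_range ht]
    rfl
  have hXt : ∀ i t, t < n + s i →
      ((List.range n).map w ++ uw (a i) (b i) (s i))[t]? = some (X a b w s n i t) := by
    intro i t ht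
    by_cases h1 : t < n
    · rw [X_lt h1, List.getElem?_append_left (by rw [hL]; exact h1), hLt t h1]
    · rw [X_ge (by omega), List.getElem?_append_right (by rw [hL]; omega), hL,
        getElem?_uw _ _ (by omega)]
  have hmem : ∀ c ∈ (List.range n).map w, ∃ i, c = a i ∨ c = b i := by
    intro c hc
    obtain ⟨t, ht, rfl⟩ := List.mem_map.1 hc
    exact hlet t (List.mem_range.1 ht)
  have hmem' : ∀ i, ∀ c ∈ (List.range n).map w ++ uw (a i) (b i) (s i),
      ∃ i, c = a i ∨ c = b i := by
    intro i c hc
    rcases List.mem_append.1 hc with hc | hc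
    · exact hmem c hc
    · exact ⟨i, mem_uw hc⟩
  refine ⟨(List.range n).map w, ?_, hmem, by rw [hL]; exact hlen, ⟨j, ?_⟩, fun i => ?_⟩
  · intro h0
    have h1 := hL
    rw [h0, List.length_nil] at h1
    have := hs j
    omega
  · rw [List.prefix_iff_eq_take]
    apply List.ext_getElem?
    intro t
    rw [List.getElem?_take, length_uw _ _ (hs j)]
    by_cases ht : t < s j
    · rw [if_pos ht, getElem?_uw _ _ ht, hLt t (by omega), hj t ht]
    · rw [if_neg ht, List.getElem?_eq_none (by rw [length_uw _ _ (hs j)]; omega)]
  · obtain ⟨x, z, h1, h2, h3, h4, h5⟩ := eq_of_period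
      (y := (List.range n).map w ++ uw (a i) (b i) (s i)) (p := V i)
      (by
        rw [List.length_append, hL, length_uw _ _ (hs i)]
        exact hVn i)
      (by
        intro t ht
        rw [List.length_append, hL, length_uw _ _ (hs i)] at ht
        rw [hXt i t (by omega), hXt i _ ht, hper i t ht])
    exact ⟨x, z, h1, h2, h3, fun c hc => hmem' i c (h4 c hc), fun c hc => hmem' i c (h5 c hc)⟩

/-- Divisibility: the words commuting with `a ^ (n - 1) b` are its powers. -/
theorem commute_uw {a b : α} (hab : a ≠ b) {n : ℕ} (hn : 1 ≤ n) :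
    ∀ v : List α, v ++ uw a b n = uw a b n ++ v ↔ ∃ k, v = (List.replicate k (uw a b n)).flatten := by
  intro v
  constructor
  · induction h : v.length using Nat.strong_induction_on generalizing v with
    | _ m ih =>
    intro he
    rcases List.eq_nil_or_concat v with rfl | ⟨v₀, c, hvc⟩
    · exact ⟨0, rfl⟩
    rw [List.concat_eq_append] at hvc
    by_cases hlt : v.length < n
    · exfalso
      -- the last letter of `v` is `b`
      have hc : c = b := by
        have h1 : (v ++ uw a b n).getLast? = some b := by
          unfold uw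
          rw [← List.append_assoc, List.getLast?_append]
          rfl
        have h2 : (uw a b n ++ v).getLast? = some c := by
          rw [hvc, ← List.append_assoc, List.getLast?_append]
          rfl
        rw [he, h2] at h1
        exact Option.some_injective _ h1
      have h3 : v[v.length - 1]? = some c := by
        rw [hvc, List.length_append, List.length_singleton, Nat.add_sub_cancel,
          List.getElem?_append_right le_rfl, Nat.sub_self]
        rfl
      have h4 : v.length ≠ 0 := by
        rw [hvc, List.length_append, List.length_singleton]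
        omega
      have h5 : v[v.length - 1]? = some a := by
        have h6 : (v ++ uw a b n)[v.length - 1]? = (uw a b n ++ v)[v.length - 1]? := by rw [he]
        rw [List.getElem?_append_left (by omega),
          List.getElem?_append_left (by rw [length_uw _ _ hn]; omega),
          getElem?_uw _ _ (by omega), ul_a (by omega)] at h6
        exact h6
      rw [h3, hc] at h5
      exact hab (Option.some_injective _ h5).symm
    · obtain ⟨v', hv'⟩ : ∃ v', v = uw a b n ++ v' := by
        have h1 : uw a b n <+: v ++ uw a b n := ⟨v, he.symm⟩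
        have h2 : v <+: v ++ uw a b n := ⟨_, rfl⟩
        obtain ⟨v', hv'⟩ := List.prefix_of_prefix_length_le h1 h2 (by
          rw [length_uw _ _ hn]
          omega)
        exact ⟨v', hv'.symm⟩
      have h1 : v' ++ uw a b n = uw a b n ++ v' := by
        rw [hv', List.append_assoc, List.append_cancel_left_eq] at he
        exact he
      obtain ⟨k, hk⟩ := ih v'.length (by
        rw [← h, hv', List.length_append, length_uw _ _ hn]
        omega) v' rfl h1
      refine ⟨k + 1, ?_⟩
      rw [hv', hk, List.replicate_succ, List.flatten_cons]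
  · rintro ⟨k, rfl⟩
    induction k with
    | zero => simp
    | succ k ih =>
      rw [List.replicate_succ, List.flatten_cons, List.append_assoc, ih]

/-- Divisibility. -/
theorem dvd_iff {a b : α} (hab : a ≠ b) {n m : ℕ} (hn : 1 ≤ n) :
    n ∣ m ↔ ∃ v : List α, v.length = m ∧ v ++ uw a b n = uw a b n ++ v := by
  constructor
  · rintro ⟨k, rfl⟩
    refine ⟨(List.replicate k (uw a b n)).flatten, ?_, (commute_uw hab hn _).2 ⟨k, rfl⟩⟩
    rw [List.length_flatten, List.map_replicate, length_uw _ _ hn, List.sum_replicate,
      smul_eq_mul, mul_comm]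
  · rintro ⟨v, rfl, hv⟩
    obtain ⟨k, rfl⟩ := (commute_uw hab hn v).1 hv
    refine ⟨k, ?_⟩
    rw [List.length_flatten, List.map_replicate, length_uw _ _ hn, List.sum_replicate,
      smul_eq_mul, mul_comm]

/-- The word `a ^ (n - 1) b`. -/
def blk {α : Type*} (a b : α) (n : ℕ) : List α := List.replicate (n - 1) a ++ [b]

/-- The number `p` is a period of the word `x`. -/
def Per {α : Type*} (x : List α) (p : ℕ) : Prop := ∃ y z : List α, y.length = p ∧ y ++ x = x ++ z

/-- The relation `AR` in terms of words. -/
theorem ar_words {α : Type} (a b : Fin 3 → α) (ha : Function.Injective a)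
    (hb : Function.Injective b) (hab : ∀ i j, a i ≠ b j) (s V : V3) (hs : ∀ i, 0 < s i)
    (hV : ∀ i, 0 < V i) :
    AR s V ↔ V = s ∨ ∃ w : List α, 2 * w.length + (s 0 + s 1 + s 2) = V 0 + V 1 + V 2 ∧
      (∀ i, Per (w ++ blk (a i) (b i) (s i)) (V i)) ∧ ∃ j, blk (a j) (b j) (s j) <+: w := by
  have H : Six a b := ⟨fun _ _ h => ha h, fun _ _ h => hb h, hab⟩
  constructor
  · intro h
    by_cases hne : V = s
    · exact Or.inl hne
    · obtain ⟨w, -, -, h1, h2, h3⟩ := complete hs h hne a b
      refine Or.inr ⟨w, h1, fun i => ?_, h2⟩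
      obtain ⟨x, z, hxz, hx, -⟩ := h3 i
      exact ⟨x, z, hx, hxz⟩
  · rintro (rfl | ⟨w, h1, h2, h3⟩)
    · exact AR.refl
    · refine (sound H hs hV h1 h3 fun i => ?_).1
      obtain ⟨x, z, hx, hxz⟩ := h2 i
      exact ⟨x, z, hxz, hx⟩

/-- The relation `AR` in terms of words: the word over the six letters. -/
theorem ar_words' {α : Type} (a b : Fin 3 → α) (s V : V3) (hs : ∀ i, 0 < s i) (h : AR s V)
    (hne : V ≠ s) :
    ∃ w : List α, w ≠ [] ∧ (∀ c ∈ w, ∃ i, c = a i ∨ c = b i) ∧
      2 * w.length + (s 0 + s 1 + s 2) = V 0 + V 1 + V 2 ∧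
      (∀ i, ∃ y z : List α, y.length = V i ∧ z.length = V i ∧
        y ++ (w ++ blk (a i) (b i) (s i)) = w ++ blk (a i) (b i) (s i) ++ z ∧
        (∀ c ∈ y, ∃ i, c = a i ∨ c = b i) ∧ ∀ c ∈ z, ∃ i, c = a i ∨ c = b i) ∧
      ∃ j, blk (a j) (b j) (s j) <+: w := by
  obtain ⟨w, h0, hl, h1, h2, h3⟩ := complete hs h hne a b
  refine ⟨w, h0, hl, h1, fun i => ?_, h2⟩
  obtain ⟨x, z, hxz, hx, hz, h4, h5⟩ := h3 i
  exact ⟨x, z, hx, hz, hxz, h4, h5⟩

end lists

end Pool.WL
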